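import Pool.Agent.Helper37.T5g.Chain
import Pool.Agent.Helper30.T5g.Size

/-!
# T5g (MP_12a1af, fixed number of representations): the constant parameters

`OkF m`: constant quotient `2 ^ (q + 1)` of the sizes, large against all primes.
-/

set_option autoImplicit false

namespace Pool.Agent.Helper99.T5g

open Pool.Agent.Helper37.T5g Pool.Agent.Helper30.T5g
open Pool.Agent.Helper27.T5 (sp)

/-- admissible constant parameters, `m.k` active levels -/
structure OkF (m : Sq) : Prop extends m.Ok where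
  qc : ∀ t, m.q t = m.q 0
  gc : ∀ t, m.gr t = m.gr 0
  kc : ∀ t, m.kap t = m.kap 0
  big : 2 ^ 40 * BP m.k ≤ 2 ^ m.gr 0
  grq : m.gr 0 + 400 ≤ m.q 0
  kaple : m.kap 0 ≤ m.q 0
  age : 8 * m.q 0 + 400 ≤ m.a0
  kq : 16 * m.gr 0 + 4 * (m.k + 4) ≤ m.q 0

/-! ## primes -/

theorem nth_prime_le (n : ℕ) : Nat.nth Nat.Prime n ≤ 2 ^ (n + 1) := by
  induction n with
  | zero => simp
  | succ n ih =>
    have h0 : Nat.nth Nat.Prime n ≠ 0 := (Nat.prime_nth_prime n).ne_zero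
    obtain ⟨p, hp, h1, h2⟩ := Nat.exists_prime_lt_and_le_two_mul _ h0
    have h3 : Nat.nth Nat.Prime (n + 1) ≤ p := by
      by_contra hc
      push Not at hc
      obtain ⟨i, hi⟩ : ∃ i, Nat.nth Nat.Prime i = p :=
        ⟨Nat.count Nat.Prime p, Nat.nth_count hp⟩
      rw [← hi] at h1 hc
      have h6 := (Nat.nth_lt_nth Nat.infinite_setOfPred_prime).1 h1
      have h7 := (Nat.nth_lt_nth Nat.infinite_setOfPred_prime).1 hc
      omega
    calc Nat.nth Nat.Prime (n + 1) ≤ 2 * Nat.nth Nat.Prime n := h3.trans h2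
      _ ≤ 2 * 2 ^ (n + 1) := Nat.mul_le_mul_left _ ih
      _ = 2 ^ (n + 1 + 1) := by ring

theorem exists_BP_le : ∃ N : ℕ, ∀ k, BP k ≤ 2 ^ (3 * k + N) := by
  refine ⟨10 ^ 6 + 10, fun k => ?_⟩
  unfold BP Pool.Agent.Helper27.T5.sp
  generalize 10 ^ 6 = N
  refine (nth_prime_le _).trans (Nat.pow_le_pow_right (by norm_num) ?_)
  omega

theorem BP_pos' (k : ℕ) : 0 < BP k := Pool.Agent.Helper30.T5.sp_pos _

/-- `3 k ≤ gr`-type lower bound -/
theorem le_BP (k : ℕ) : 3 * k < BP k := by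
  have h := Pool.Agent.Helper30.T5.lt_sp (3 * (k + 3))
  unfold BP
  omega

/-- the constant schedule -/
def sqG (q gr kap a0 k : ℕ) : Sq where
  a0 := a0
  q := fun _ => q
  kap := fun _ => kap
  gr := fun _ => gr
  k := k

theorem aa_sqG (q gr kap a0 k t : ℕ) : aa (sqG q gr kap a0 k) t = a0 + (q + 1) * t := by
  induction t with
  | zero => show a0 = _; ring
  | succ t ih =>
    show aa (sqG q gr kap a0 k) t + q + 1 = _
    rw [ih]
    ring

/-- admissible parameters: the exponent of the quotient is `16 gr + 4 (k + 4)` with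
`2 ^ 40 * BP k ≤ 2 ^ gr` -/
theorem exists_okF {k gr : ℕ} (hk : 2 ≤ k) (h : 2 ^ 40 * BP k ≤ 2 ^ gr) (hg : 400 ≤ gr) :
    ∃ m : Sq, OkF m ∧ m.k = k ∧ m.gr 0 = gr ∧ m.q 0 = 16 * gr + 4 * (k + 4) := by
  obtain ⟨q, hq⟩ : ∃ q, q = 16 * gr + 4 * (k + 4) := ⟨_, rfl⟩
  refine ⟨sqG q gr (2 * gr) (8 * q + 400) k, ?_, rfl, rfl, hq⟩
  refine
    { a0 := ?_, q := fun _ => ?_, qa := fun t => ?_, qm := fun _ => le_rfl, qs := fun _ => ?_,
      T1 := fun _ => ?_, T2 := fun _ => ?_, k2 := hk, qc := fun _ => rfl,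
      gc := fun _ => rfl, kc := fun _ => rfl, big := h, grq := ?_, kaple := ?_, age := le_rfl,
      kq := ?_ }
  · show 400 ≤ 8 * q + 400
    omega
  · show 400 ≤ q
    omega
  · rw [aa_sqG]
    show q + 1 ≤ _
    omega
  · show q ≤ 2 * q + 1
    omega
  · show q + gr + 220 ≤ q + 2 * gr
    omega
  · show 2 * gr + 250 ≤ q + 2 * gr
    omega
  · show gr + 400 ≤ q
    omega
  · show 2 * gr ≤ q
    omega
  · show 16 * gr + 4 * (k + 4) ≤ q
    omega

/-! ## consequences -/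

variable {m : Sq}

theorem OkF.aa_eq (hm : OkF m) (t : ℕ) : aa m t = m.a0 + (m.q 0 + 1) * t := by
  induction t with
  | zero => show m.a0 = _; ring
  | succ t ih =>
    show aa m t + m.q t + 1 = _
    rw [ih, hm.qc t]
    ring

theorem OkF.k_le_q (hm : OkF m) : m.k + 4 ≤ m.q 0 := by
  have h1 := hm.kq
  omega

/-- powers of the primes: `(2 ^ 40 BP) ^ 16 ≤ 2 ^ q` -/
theorem OkF.BP16_le (hm : OkF m) : (2 ^ 40 * BP m.k) ^ 16 ≤ 2 ^ m.q 0 := by
  have h := hm.kq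
  calc (2 ^ 40 * BP m.k) ^ 16 ≤ (2 ^ m.gr 0) ^ 16 := Nat.pow_le_pow_left hm.big _
    _ = 2 ^ (16 * m.gr 0) := by rw [← pow_mul, mul_comm]
    _ ≤ _ := Nat.pow_le_pow_right (by norm_num) (by omega)

/-- decoding constants: `16 ^ (k + 4) ≤ 2 ^ q` -/
theorem OkF.k16_le (hm : OkF m) : 16 ^ (m.k + 4) ≤ 2 ^ m.q 0 := by
  have h := hm.kq
  calc 16 ^ (m.k + 4) = (2 ^ 4) ^ (m.k + 4) := by norm_num
    _ = 2 ^ (4 * (m.k + 4)) := by rw [← pow_mul]
    _ ≤ _ := Nat.pow_le_pow_right (by norm_num) (by omega)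

theorem OkF.k_lt_gr (hm : OkF m) : 40 + Nat.log 2 (3 * m.k + 1) ≤ m.gr 0 := by
  have h1 := hm.big
  have h2 := le_BP m.k
  have h3 : 2 ^ Nat.log 2 (3 * m.k + 1) ≤ 3 * m.k + 1 := Nat.pow_log_le_self 2 (by omega)
  have h4 : 2 ^ (40 + Nat.log 2 (3 * m.k + 1)) ≤ 2 ^ m.gr 0 := by
    refine le_trans ?_ h1
    rw [pow_add]
    exact Nat.mul_le_mul_left _ (h3.trans (by omega))
  exact (Nat.pow_le_pow_iff_right (by norm_num)).1 h4

end Pool.Agent.Helper99.T5g
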