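import Pool.Agent.Helper3.T4.Decode
import Pool.Agent.Helper39.T5.Tup

/-!
# T5g (MP_12a1af): primes in one class

Restricted to one residue class modulo `p` the index `Lg p b` is injective: the decoding constant of
a family is `2` (the order of the two primes) instead of `2 (p - 1)`.  The price is a factor `p` in
the number of admissible primes (a constant).
-/

set_option autoImplicit false

namespace Pool.Agent.Helper99.T5g

open Finset Pool.Agent.Helper27.T4 Pool.Agent.Helper3.T4 Pool.Agent.Helper39.T5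

/-- in one class modulo `p` the index is injective modulo `p ^ (b + 1)` -/
theorem Lg_inj_cls {p : ℕ} (hp : p.Prime) (hp2 : p ≠ 2) (b : ℕ) {x y : ℕ} (hx : x.Coprime p)
    (hy : y.Coprime p) (h : Lg p b x = Lg p b y) (hc : x % p = y % p) :
    x ≡ y [MOD p ^ (b + 1)] := by
  rw [Lg_eq_iff hp hp2 b x y hx hy] at h
  have h1 : ((x ^ (p - 1) : ℕ) : ZMod (p ^ (b + 1))) = ((y ^ (p - 1) : ℕ) : ZMod (p ^ (b + 1))) := by
    push_cast
    exact h
  rw [ZMod.natCast_eq_natCast_iff, ← Int.natCast_modEq_iff] at h1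
  have h2 : ((p ^ (b + 1) : ℕ) : ℤ) ∣ (x : ℤ) ^ (p - 1) - (y : ℤ) ^ (p - 1) := by
    have := h1.symm.dvd
    push_cast at this ⊢
    exact this
  rw [← (Commute.all (x : ℤ) y).geom_sum₂_mul (p - 1)] at h2
  have hxy : (x : ZMod p) = y := (ZMod.natCast_eq_natCast_iff' _ _ _).2 hc
  have h3 : IsCoprime ((p : ℤ) ^ (b + 1))
      (∑ i ∈ range (p - 1), (x : ℤ) ^ i * (y : ℤ) ^ (p - 1 - 1 - i)) := by
    refine IsCoprime.pow_left ?_
    rw [(Nat.prime_iff_prime_int.1 hp).coprime_iff_not_dvd]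
    intro hd
    have := Fact.mk hp
    have h4 : ((∑ i ∈ range (p - 1), (x : ℤ) ^ i * (y : ℤ) ^ (p - 1 - 1 - i) : ℤ) : ZMod p) = 0 :=
      (ZMod.intCast_zmod_eq_zero_iff_dvd _ p).2 hd
    push_cast at h4
    rw [← hxy] at h4
    have h5 : ∑ i ∈ range (p - 1), (x : ZMod p) ^ i * (x : ZMod p) ^ (p - 1 - 1 - i) =
        ((p - 1 : ℕ) : ZMod p) * (x : ZMod p) ^ (p - 2) := by
      rw [Finset.sum_congr rfl (g := fun _ => (x : ZMod p) ^ (p - 2)), Finset.sum_const,
        Finset.card_range, nsmul_eq_mul]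
      intro i hi
      rw [Finset.mem_range] at hi
      rw [← pow_add]
      congr 1
      omega
    rw [h5, mul_eq_zero] at h4
    rcases h4 with h4 | h4
    · rw [ZMod.natCast_eq_zero_iff] at h4
      have := Nat.le_of_dvd (Nat.sub_pos_of_lt hp.one_lt) h4
      have := hp.pos
      omega
    · have h6 : (x : ZMod p) = 0 := by
        by_contra hne
        exact pow_ne_zero _ hne h4
      rw [ZMod.natCast_eq_zero_iff] at h6
      have h7 := Nat.Coprime.eq_one_of_dvd hx.symm h6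
      exact hp.one_lt.ne' h7
  have h7 : ((p : ℤ) ^ (b + 1)) ∣ (x : ℤ) - y := by
    refine h3.dvd_of_dvd_mul_left ?_
    rw [mul_comm]
    rw [mul_comm] at h2
    push_cast at h2
    exact h2
  refine (Int.natCast_modEq_iff.1 ?_)
  refine (Int.modEq_iff_dvd.2 ?_)
  push_cast
  rw [← neg_sub, dvd_neg]
  exact h7

/-- pairs of primes in given classes, with a given quotient -/
theorem card_pairs_cls {p : ℕ} (hp : p.Prime) (hp2 : p ≠ 2) (b q α β : ℕ)
    (t : ZMod (p ^ b)) (S : Finset (ℕ × ℕ))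
    (hS : ∀ z ∈ S, z.1.Prime ∧ z.2.Prime ∧ z.1.Coprime p ∧ z.2.Coprime p ∧
      z.1 % p = α ∧ z.2 % p = β ∧
      (z.1 * z.2) / p ^ (b + 1) = q ∧ Lg p b z.1 + Lg p b z.2 = t) :
    S.card ≤ 2 := by
  classical
  rcases S.eq_empty_or_nonempty with h | ⟨z0, h0⟩
  · rw [h]
    simp
  obtain ⟨_, _, g3, g4, g5, g6, g7, g8⟩ := hS z0 h0
  refine card_two_primes_le S (z0.1 * z0.2) (fun z hz => ?_)
  obtain ⟨h1, h2, h3, h4, h5, h6, h7, h8⟩ := hS z hz
  refine ⟨h1, h2, ?_⟩
  have e1 : Lg p b (z.1 * z.2) = Lg p b (z0.1 * z0.2) := by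
    rw [Lg_mul hp hp2 b _ _ h3 h4, Lg_mul hp hp2 b _ _ g3 g4, h8, g8]
  have e2 : (z.1 * z.2) % p = (z0.1 * z0.2) % p := by
    rw [Nat.mul_mod, h5, h6, Nat.mul_mod z0.1, g5, g6]
  have e3 := Lg_inj_cls hp hp2 b (Nat.Coprime.mul_left h3 h4) (Nat.Coprime.mul_left g3 g4) e1 e2
  rw [← Nat.mod_add_div (z.1 * z.2) (p ^ (b + 1)), ← Nat.mod_add_div (z0.1 * z0.2) (p ^ (b + 1)),
    h7, g7]
  congr 1

section

variable {ι : Type*} [Fintype ι] [DecidableEq ι] {p : ι → ℕ}

/-- number of pairs of tuples whose codes have a given sum, classes given -/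
theorem card_code_pairs_cls (hp : ∀ i, (p i).Prime) (hp2 : ∀ i, p i ≠ 2) (b α β : ι → ℕ)
    (rk : ι → ℕ) (ρ ρ' : ∀ i, (ι → ℕ) → ZMod (p i ^ b i))
    (hρ : ∀ i x y, (∀ j, rk j < rk i → x j = y j) → ρ i x = ρ i y)
    (hρ' : ∀ i x y, (∀ j, rk j < rk i → x j = y j) → ρ' i x = ρ' i y)
    (c : ∀ i, ZMod (p i ^ b i)) (q : ι → ℕ) (S : Finset (ι → ℕ × ℕ))
    (hS : ∀ g ∈ S, ∀ i, (g i).1.Prime ∧ (g i).2.Prime ∧ (g i).1.Coprime (p i) ∧
      (g i).2.Coprime (p i) ∧ (g i).1 % p i = α i ∧ (g i).2 % p i = β i ∧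
      ((g i).1 * (g i).2) / p i ^ (b i + 1) = q i ∧
      (Lg (p i) (b i) (g i).1 + ρ i (fun j => (g j).1)) +
        (Lg (p i) (b i) (g i).2 + ρ' i (fun j => (g j).2)) = c i) :
    S.card ≤ 2 ^ Fintype.card ι := by
  classical
  have h := card_le_prod_of_rank rk (fun _ => 2) S ?_
  · rw [Finset.prod_const, Finset.card_univ] at h
    exact h
  intro f g hg
  refine card_pairs_cls (hp f) (hp2 f) (b f) (q f) (α f) (β f)
    (c f - ρ f (fun j => (g j).1) - ρ' f (fun j => (g j).2)) _ ?_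
  intro z hz
  rw [Finset.mem_image] at hz
  obtain ⟨g', hg', rfl⟩ := hz
  rw [Finset.mem_filter] at hg'
  obtain ⟨h1, h2, h3, h4, h5, h6, h7, h8⟩ := hS g' hg'.1 f
  refine ⟨h1, h2, h3, h4, h5, h6, h7, ?_⟩
  rw [← h8, hρ f (fun j => (g' j).1) (fun j => (g j).1) (fun j hj => by rw [hg'.2 j hj]),
    hρ' f (fun j => (g' j).2) (fun j => (g j).2) (fun j hj => by rw [hg'.2 j hj])]
  ring

end

/-! ## the largest class -/

theorem exists_cls (p a : ℕ) (hp : 0 < p) : ∃ r < p,
    (T1 p a).card ≤ p * ((T1 p a).filter (fun y => y % p = r)).card := by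
  classical
  obtain ⟨r, hr, h⟩ := Finset.exists_max_image (range p)
    (fun r => ((T1 p a).filter (fun y => y % p = r)).card) ⟨0, mem_range.2 hp⟩
  refine ⟨r, mem_range.1 hr, ?_⟩
  have h1 : (T1 p a).card = ∑ s ∈ range p, ((T1 p a).filter (fun y => y % p = s)).card :=
    Finset.card_eq_sum_card_fiberwise (fun y _ => mem_coe.2 (mem_range.2 (Nat.mod_lt _ hp)))
  rw [h1]
  calc ∑ s ∈ range p, ((T1 p a).filter (fun y => y % p = s)).card
      ≤ ∑ _s ∈ range p, ((T1 p a).filter (fun y => y % p = r)).card := Finset.sum_le_sum h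
    _ = _ := by rw [Finset.sum_const, card_range, smul_eq_mul]

open Classical in
/-- the class with the largest number of admissible primes -/
noncomputable def cls (p a : ℕ) : ℕ := if h : 0 < p then (exists_cls p a h).choose else 0

/-- the admissible primes in the largest class -/
noncomputable def T1c (p a : ℕ) : Finset ℕ := (T1 p a).filter (fun y => y % p = cls p a)

theorem T1c_subset (p a : ℕ) : T1c p a ⊆ T1 p a := filter_subset _ _

theorem mod_of_mem_T1c {p a y : ℕ} (h : y ∈ T1c p a) : y % p = cls p a := (mem_filter.1 h).2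

theorem card_T1_le {p : ℕ} (hp : 0 < p) (a : ℕ) : (T1 p a).card ≤ p * (T1c p a).card := by
  unfold T1c cls
  rw [dif_pos hp]
  exact (exists_cls p a hp).choose_spec.2

/-- admissible tuples in the largest classes -/
noncomputable def TTc {ι : Type*} [Fintype ι] [DecidableEq ι] (p a : ι → ℕ) : Finset (ι → ℕ) :=
  Fintype.piFinset (fun f => T1c (p f) (a f))

theorem TTc_subset {ι : Type*} [Fintype ι] [DecidableEq ι] (p a : ι → ℕ) : TTc p a ⊆ TT p a :=
  Fintype.piFinset_subset _ _ (fun _ => T1c_subset _ _)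

theorem card_TT_le {ι : Type*} [Fintype ι] [DecidableEq ι] {p : ι → ℕ} (hp : ∀ i, 0 < p i)
    (a : ι → ℕ) : (TT p a).card ≤ (∏ i, p i) * (TTc p a).card := by
  unfold TT TTc
  rw [Fintype.card_piFinset, Fintype.card_piFinset, ← Finset.prod_mul_distrib]
  exact Finset.prod_le_prod' (fun i _ => card_T1_le (hp i) _)

end Pool.Agent.Helper99.T5g
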