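import Pool.Agent.Helper22.HW.Static
import Pool.Agent.Helper99.T5g.Cls

/-!
# T5g (MP_12a1af): decoding of a static level, primes in given classes

Copy of `Helper22.HW.dec_quot` and `dec_static`; the constant of a family is `2`.
-/

set_option autoImplicit false

namespace Pool.Agent.Helper99.T5g

open Finset Pool.Agent.Helper27.T4 Pool.Agent.Helper3.T4 Pool.Agent.Helper22.HW

variable {ι : Type*} [Fintype ι] [DecidableEq ι] {p : ι → ℕ}

/-- pairs with given residue, given quotients and given classes -/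
theorem dec_quot_cls (hp : ∀ i, (p i).Prime) (hp2 : ∀ i, p i ≠ 2) (hinj : Function.Injective p)
    (M M' : ℕ) (hM : ∀ i, M.Coprime (p i)) (hM' : ∀ i, M'.Coprime (p i)) (rk : ι → ℕ)
    (e e' b : ι → ℕ) (hbe : ∀ i, b i ≤ e i) (hbe' : ∀ i, b i ≤ e' i)
    (ρ : ∀ i, (ι → ℕ) → ZMod (p i ^ e i)) (ρ' : ∀ i, (ι → ℕ) → ZMod (p i ^ e' i))
    (hρ : ∀ i x y, (∀ j, rk j < rk i → x j = y j) → ρ i x = ρ i y)
    (hρ' : ∀ i x y, (∀ j, rk j < rk i → x j = y j) → ρ' i x = ρ' i y)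
    (S : Finset ((ι → ℕ) × (ι → ℕ)))
    (hS1 : ∀ t ∈ S, ∀ i, (t.1 i).Prime ∧ (t.1 i).Coprime (p i))
    (hS2 : ∀ t ∈ S, ∀ i, (t.2 i).Prime ∧ (t.2 i).Coprime (p i))
    (α β : ι → ℕ) (hα : ∀ t ∈ S, ∀ i, t.1 i % p i = α i) (hβ : ∀ t ∈ S, ∀ i, t.2 i % p i = β i)
    (n : ℕ) (q : ι → ℕ)
    (hq : ∀ t ∈ S, ∀ i, (t.1 i * t.2 i) / p i ^ (b i + 1) = q i)
    (hn : ∀ t ∈ S, ∀ i, (lc hp hinj M e ρ t.1 + lc hp hinj M' e' ρ' t.2) ≡ n [MOD p i ^ b i]) :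
    S.card ≤ 2 ^ Fintype.card ι := by
  classical
  set σ : ∀ i, (ι → ℕ) → ZMod (p i ^ b i) := fun i x =>
    ZMod.castHom (pow_dvd_pow (p i) (hbe i)) (ZMod (p i ^ b i)) (ρ i x) with hσ
  set σ' : ∀ i, (ι → ℕ) → ZMod (p i ^ b i) := fun i x =>
    ZMod.castHom (pow_dvd_pow (p i) (hbe' i)) (ZMod (p i ^ b i)) (ρ' i x) with hσ'
  have hσr : ∀ i x y, (∀ j, rk j < rk i → x j = y j) → σ i x = σ i y := fun i x y h => by
    simp only [hσ]; rw [hρ i x y h]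
  have hσr' : ∀ i x y, (∀ j, rk j < rk i → x j = y j) → σ' i x = σ' i y := fun i x y h => by
    simp only [hσ']; rw [hρ' i x y h]
  refine le_trans (card_le_card_of_injOn (fun t => zp t.1 t.2) (t := S.image
    (fun t => zp t.1 t.2)) ?_ ?_) ?_
  · intro t ht
    exact mem_coe.2 (mem_image_of_mem _ (mem_coe.1 ht))
  · intro t _ t' _ htt
    refine Prod.ext ?_ ?_
    · funext i
      exact congrArg Prod.fst (congrFun htt i)
    · funext i
      exact congrArg Prod.snd (congrFun htt i)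
  · refine card_code_pairs_cls hp hp2 b α β rk σ σ' hσr hσr'
      (fun i => ((n : ℕ) : ZMod (p i ^ b i))) q _ ?_
    intro w hw i
    rw [mem_image] at hw
    obtain ⟨t, ht, rfl⟩ := hw
    refine ⟨(hS1 t ht i).1, (hS2 t ht i).1, (hS1 t ht i).2, (hS2 t ht i).2, hα t ht i, hβ t ht i,
      hq t ht i, ?_⟩
    have h5 := (ZMod.natCast_eq_natCast_iff _ _ _).2 (hn t ht i)
    rw [Nat.cast_add, lc_cast hp hp2 hinj _ hM e b hbe ρ _ i (hS1 t ht i).2,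
      lc_cast hp hp2 hinj _ hM' e' b hbe' ρ' _ i (hS2 t ht i).2] at h5
    exact h5

/-- **Static decoding**, primes in given classes -/
theorem dec_static_cls (hp : ∀ i, (p i).Prime) (hp2 : ∀ i, p i ≠ 2) (hinj : Function.Injective p)
    (M M' : ℕ) (hM : ∀ i, M.Coprime (p i)) (hM' : ∀ i, M'.Coprime (p i)) (rk : ι → ℕ)
    (e e' z : ι → ℕ) (hze : ∀ i, z i ≤ e i) (hze' : ∀ i, z i ≤ e' i)
    (ρ : ∀ i, (ι → ℕ) → ZMod (p i ^ e i)) (ρ' : ∀ i, (ι → ℕ) → ZMod (p i ^ e' i))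
    (hρ : ∀ i x y, (∀ j, rk j < rk i → x j = y j) → ρ i x = ρ i y)
    (hρ' : ∀ i x y, (∀ j, rk j < rk i → x j = y j) → ρ' i x = ρ' i y)
    (Y Y' : Finset (ι → ℕ)) (hY : Adm p z Y) (hY' : Adm p z Y')
    (α β : ι → ℕ) (hα : ∀ y ∈ Y, ∀ i, y i % p i = α i) (hβ : ∀ y ∈ Y', ∀ i, y i % p i = β i) :
    Dec Y Y' (lc hp hinj M e ρ) (lc hp hinj M' e' ρ') (NN p z) (2 ^ Fintype.card ι) := by
  classical
  intro T
  refine dec_quot_cls hp hp2 hinj M M' hM hM' rk e e' z hze hze' ρ ρ' hρ hρ' _ ?_ ?_ α β ?_ ?_ T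
    (fun _ => 0) ?_ ?_
  · intro t ht i
    rw [mem_filter, mem_product] at ht
    exact ⟨(hY _ ht.1.1 i).1, (hY _ ht.1.1 i).2.1⟩
  · intro t ht i
    rw [mem_filter, mem_product] at ht
    exact ⟨(hY' _ ht.1.2 i).1, (hY' _ ht.1.2 i).2.1⟩
  · intro t ht i
    rw [mem_filter, mem_product] at ht
    exact hα _ ht.1.1 i
  · intro t ht i
    rw [mem_filter, mem_product] at ht
    exact hβ _ ht.1.2 i
  · intro t ht i
    rw [mem_filter, mem_product] at ht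
    have h4 := prod_lt_of_adm hp hY hY' ht.1.1 ht.1.2 i
    rw [max_self, min_self, Nat.sub_self, Nat.zero_div, pow_zero, Nat.lt_one_iff] at h4
    exact h4
  · intro t ht i
    rw [mem_filter] at ht
    have h5 : (lc hp hinj M e ρ t.1 + lc hp hinj M' e' ρ' t.2) ≡ T [MOD NN p z] := ht.2
    exact h5.of_dvd (pow_dvd_NN p z i)

end Pool.Agent.Helper99.T5g
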