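import Pool.Agent.Helper57.T5g.Primes
import Pool.Agent.Helper99.T5g.OkF

/-!
# T5g (MP_12a1af, fixed number of representations): the final numbers

`PerM E m`: the set belonging to the schedule `m`.  `fixedG_of`: from `PerM E m` for all admissible
`m` with many levels to the theorem about all large `g`.
-/

set_option autoImplicit false

namespace Pool.Agent.Helper99.T5g

open Pool.Agent.Helper37.T5g Pool.Agent.Helper30.T5g

/-- `2 log2 (k + 1) + c ≤ k / 16` for large `k` -/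
theorem exists_log_small (c : ℕ) : ∃ k0 : ℕ, ∀ k, k0 ≤ k →
    16 * (2 * Nat.log 2 (k + 1) + c) + 16 ≤ k := by
  have h1 : Filter.Tendsto (fun k : ℕ => ((k : ℝ) + 1)) Filter.atTop Filter.atTop :=
    Filter.tendsto_atTop_add_const_right _ _ tendsto_natCast_atTop_atTop
  have h2 := h1.eventually
    ((Real.isLittleO_log_id_atTop).def (show (0 : ℝ) < 1 / 128 by norm_num))
  obtain ⟨K, hK⟩ := Filter.eventually_atTop.1 h2
  refine ⟨K + 64 * c + 128, fun k hk => ?_⟩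
  have h3 := hK k (by omega)
  have hk1 : (0 : ℝ) < (k : ℝ) + 1 := by positivity
  rw [Real.norm_eq_abs, Real.norm_eq_abs, id, abs_of_pos hk1] at h3
  have h4 := (le_abs_self _).trans h3
  have h5 : ((Nat.log 2 (k + 1) : ℕ) : ℝ) * Real.log 2 ≤ Real.log ((k : ℝ) + 1) := by
    rw [← Real.log_pow]
    refine Real.log_le_log (by positivity) ?_
    exact_mod_cast Nat.pow_log_le_self 2 (by omega : k + 1 ≠ 0)
  have h6 := Real.log_two_gt_d9
  have h7 : ((Nat.log 2 (k + 1) : ℕ) : ℝ) * 0.69 ≤ 1 / 128 * ((k : ℝ) + 1) := by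
    refine le_trans ?_ (h5.trans h4)
    exact mul_le_mul_of_nonneg_left (by linarith) (Nat.cast_nonneg _)
  have h8 : ((64 * Nat.log 2 (k + 1) : ℕ) : ℝ) ≤ ((k + 1 : ℕ) : ℝ) := by
    push_cast
    linarith
  have h9 : 64 * Nat.log 2 (k + 1) ≤ k + 1 := by exact_mod_cast h8
  omega

/-- parameters with a quotient exponent of the order `k` -/
theorem exists_okF_lin : ∃ k0 : ℕ, ∀ k, k0 ≤ k → ∃ m : Sq, OkF m ∧ m.k = k ∧
    4 * k ≤ m.q 0 ∧ m.q 0 ≤ 5 * k := by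
  obtain ⟨N, hN⟩ := Pool.Agent.Helper57.T5g.exists_BP_le_sq
  obtain ⟨c, hc⟩ : ∃ c : ℕ, c = 440 := ⟨_, rfl⟩
  obtain ⟨k0, hk0⟩ := exists_log_small (N + c)
  refine ⟨k0 + 2, fun k hk => ?_⟩
  have h1 := hk0 k (by omega)
  obtain ⟨G, hG⟩ : ∃ G : ℕ, G = 2 * Nat.log 2 (k + 1) + (N + c) := ⟨_, rfl⟩
  rw [← hG] at h1
  have hB : 2 ^ 40 * BP k ≤ 2 ^ G := by
    refine (Nat.mul_le_mul_left _ (hN k)).trans ?_
    rw [← pow_add]
    exact Nat.pow_le_pow_right (by norm_num) (by omega)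
  obtain ⟨m, hm, e1, _, e3⟩ := exists_okF (k := k) (by omega) hB (by omega)
  exact ⟨m, hm, e1, by omega, by omega⟩

/-- the set belonging to a schedule -/
def PerM (E : ℕ) (m : Sq) : Prop := ∃ A : Set ℕ, A.Infinite ∧
  (∀ n : ℕ, {p : ℕ × ℕ | p.1 ∈ A ∧ p.2 ∈ A ∧ p.1 + p.2 = n}.ncard ≤ 2 ^ (E * m.q 0)) ∧
  ∃ x0 : ℕ, ∀ x : ℕ, x0 ≤ x →
    (x : ℝ) ^ ((1 : ℝ) / 2 - (2 : ℝ) ^ (-((m.q 0 * m.k : ℕ) : ℝ))) ≤ ((A ∩ Set.Iio x).ncard : ℝ)

/-- the numbers: `k` is about `log g` -/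
theorem numbers_g (E k0 : ℕ) (hE : 1 ≤ E) : ∃ (c : ℝ) (g0 : ℕ), 0 < c ∧ ∀ g : ℕ, g0 ≤ g →
    ∃ k : ℕ, k0 ≤ k ∧ 2 ^ (E * (5 * k)) ≤ g ∧
      c * (Real.log g * Real.log g) ≤ (((4 * k) * k : ℕ) : ℝ) * Real.log 2 := by
  have hE' : (1 : ℝ) ≤ E := by exact_mod_cast hE
  refine ⟨1 / (100 * E ^ 2), 2 ^ (5 * E * (k0 + 1)), by positivity, fun g hg => ?_⟩
  obtain ⟨L, hL⟩ : ∃ L, L = Nat.log 2 g := ⟨_, rfl⟩
  have hg0 : g ≠ 0 := by
    have : 0 < 2 ^ (5 * E * (k0 + 1)) := by positivity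
    omega
  have h1 : 2 ^ L ≤ g := by
    rw [hL]
    exact Nat.pow_log_le_self 2 hg0
  have h2 : 5 * E * (k0 + 1) ≤ L := by
    rw [hL]
    exact (Nat.le_log_iff_pow_le (by norm_num) hg0).2 hg
  obtain ⟨k, hk⟩ : ∃ k, k = L / (5 * E) := ⟨_, rfl⟩
  have hE5 : 0 < 5 * E := by omega
  have h3 : k0 + 1 ≤ k := by
    rw [hk, Nat.le_div_iff_mul_le hE5, mul_comm]
    exact h2
  have h4 : 5 * E * k ≤ L := by
    rw [hk]
    exact Nat.mul_div_le _ _
  have h5 : L < 5 * E * (k + 1) := by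
    rw [hk]
    exact Nat.lt_mul_div_succ L hE5
  refine ⟨k, by omega, ?_, ?_⟩
  · refine le_trans (Nat.pow_le_pow_right (by norm_num) ?_) h1
    calc E * (5 * k) = 5 * E * k := by ring
      _ ≤ L := h4
  · have k1 : (1 : ℝ) ≤ k := by exact_mod_cast (by omega : 1 ≤ k)
    have e1 : (g : ℝ) < 2 ^ (L + 1) := by
      rw [hL]
      exact_mod_cast Nat.lt_pow_succ_log_self (by norm_num) g
    have hgpos : (0 : ℝ) < g := by exact_mod_cast Nat.pos_of_ne_zero hg0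
    have e2 := Real.log_lt_log hgpos e1
    rw [Real.log_pow] at e2
    push_cast at e2
    have e3 := Real.log_two_lt_d9
    have e3' := Real.log_two_gt_d9
    have e4 : (L : ℝ) + 1 ≤ 5 * E * (k + 1) := by exact_mod_cast h5
    have e5 : (5 : ℝ) * E * (k + 1) ≤ 10 * E * k := by nlinarith
    have e6 : Real.log g ≤ 7 * E * k := by
      have h6 : ((L : ℝ) + 1) * Real.log 2 ≤ 10 * E * k * 0.7 :=
        mul_le_mul (e4.trans e5) (by linarith) (by linarith) (by positivity)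
      linarith
    have e7 : 0 ≤ Real.log g := Real.log_natCast_nonneg _
    have e8 : Real.log g * Real.log g ≤ 7 * E * k * (7 * E * k) :=
      mul_le_mul e6 e6 e7 (by positivity)
    have e9 : 1 / (100 * (E : ℝ) ^ 2) * (Real.log g * Real.log g) ≤
        1 / (100 * (E : ℝ) ^ 2) * (7 * E * k * (7 * E * k)) :=
      mul_le_mul_of_nonneg_left e8 (by positivity)
    have e10 : 1 / (100 * (E : ℝ) ^ 2) * (7 * E * k * (7 * E * k)) = 49 / 100 * k ^ 2 := by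
      field_simp
      ring
    rw [e10] at e9
    push_cast
    nlinarith [sq_nonneg (k : ℝ)]

/-- **FixedG** from the sets of the schedules -/
theorem fixedG_of {E k0 : ℕ} (h : ∀ m : Sq, OkF m → k0 ≤ m.k → PerM E m) :
    ∃ (c : ℝ) (g0 : ℕ), 0 < c ∧ ∀ g : ℕ, g0 ≤ g → ∃ A : Set ℕ, A.Infinite ∧
      (∀ n : ℕ, {p : ℕ × ℕ | p.1 ∈ A ∧ p.2 ∈ A ∧ p.1 + p.2 = n}.ncard ≤ g) ∧
      ∃ x0 : ℕ, ∀ x : ℕ, x0 ≤ x →
        (x : ℝ) ^ ((1 : ℝ) / 2 - (g : ℝ) ^ (-(c * Real.log g))) ≤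
          ((A ∩ Set.Iio x).ncard : ℝ) := by
  obtain ⟨k1, hk1⟩ := exists_okF_lin
  obtain ⟨c, g0, hc, hg⟩ := numbers_g (E + 1) (k0 + k1) (by omega)
  refine ⟨c, g0 + 1, hc, fun g hg0 => ?_⟩
  obtain ⟨k, a1, a2, a3⟩ := hg g (by omega)
  obtain ⟨m, hm, e1, e2, e3⟩ := hk1 k (by omega)
  obtain ⟨A, b1, b2, x0, b3⟩ := h m hm (by omega)
  refine ⟨A, b1, fun n => (b2 n).trans ?_, x0 + 1, fun x hx => ?_⟩
  · refine le_trans (Nat.pow_le_pow_right (by norm_num) ?_) a2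
    exact Nat.mul_le_mul (by omega) e3
  · refine le_trans ?_ (b3 x (by omega))
    have hx1 : (1 : ℝ) ≤ x := by exact_mod_cast (by omega : 1 ≤ x)
    refine Real.rpow_le_rpow_of_exponent_le hx1 (sub_le_sub_left ?_ _)
    have hg1 : (0 : ℝ) < g := by exact_mod_cast (by omega : 0 < g)
    rw [Real.rpow_def_of_pos hg1, Real.rpow_def_of_pos (by norm_num : (0 : ℝ) < 2)]
    refine Real.exp_le_exp.2 ?_
    have h4 : (((4 * k) * k : ℕ) : ℝ) ≤ ((m.q 0 * m.k : ℕ) : ℝ) := by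
      rw [e1]
      exact_mod_cast Nat.mul_le_mul_right k e2
    have h5 : (0 : ℝ) < Real.log 2 := Real.log_pos (by norm_num)
    have h6 := mul_le_mul_of_nonneg_right h4 h5.le
    have h7 : Real.log g * -(c * Real.log g) = -(c * (Real.log g * Real.log g)) := by ring
    rw [h7]
    have h8 : Real.log 2 * -((m.q 0 * m.k : ℕ) : ℝ) = -(((m.q 0 * m.k : ℕ) : ℝ) * Real.log 2) := by
      ring
    rw [h8]
    linarith

end Pool.Agent.Helper99.T5g
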