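import Pool.Agent.Helper42.T5.SetR

/-!
# T5g (MP_12a1af): from the pair block, the range and the count to one set, fixed bound

Everything for arbitrary keys, arbitrary random sets `AA l w` and an arbitrary chain `N`.  All the
bounds for a pair of scales are one number `G`; the count may lose the power `N ^ d`.
-/

set_option autoImplicit false

namespace Pool.Agent.Helper99.T5g

open Finset Pool.Agent.Helper44.T4 Pool.Agent.Helper42.T5 Pool.Agent.Helper42.T5.Pr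

/-- one horizon -/
theorem horizon_set_F {N : ℕ → ℕ} (hN : ∀ K, 2 * N K ≤ N (K + 1)) (hN0 : 1 ≤ N 0) {K0 : ℕ}
    (hK0 : 7 ≤ K0) {F : ℕ → ℝ} {G : ℕ} (Used : ℕ → Prop) (S : ℕ) (A : ℕ → Finset ℕ)
    (h1 : ∀ K, K0 ≤ K → ∀ a ∈ A K, N K ≤ a ∧ a < N (K + 1))
    (h2 : ∀ K, K0 ≤ K → K < S → Used K → F K ≤ ((A K).card : ℝ))
    (h3 : ∀ K K', K0 ≤ K' → K' ≤ K → ∀ n : ℕ,
      ((A K ×ˢ A K').filter (fun q => q.1 + q.2 = n)).card ≤ G) :
    ∃ B : Set ℕ, (∀ n : ℕ, 2 ≤ n → rep B n ≤ 6 * G) ∧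
      ∀ K, K0 ≤ K → K < S → Used K → F K ≤
        2 * (K : ℝ) ^ 2 * ((B ∩ Set.Iio (2 * N (K + 1))).ncard : ℝ) := by
  have hp := two_pow_le_chain hN hN0
  obtain ⟨B, hB1, hB2⟩ := label_chain (A := A) (N := N) (K0 := K0) (by omega) hN
    (fun K hK => (two_mul_sq_le_two_pow (hK0.trans hK)).trans (hp K)) (R := fun _ => (G : ℝ))
    (fun _ _ _ => le_rfl) (fun _ => Nat.cast_nonneg _) h1
    (fun K K' a b n => by exact_mod_cast h3 K K' a b n)
  refine ⟨B, ?_, ?_⟩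
  · intro n hn
    have h := hB1 n _ ((Nat.lt_pow_succ_log_self (by norm_num) n).trans_le (hp _))
    exact_mod_cast h
  · intro K hK hKS hU
    refine (h2 K hK hKS hU).trans ?_
    have h8 := hB2 K hK (2 * N (K + 1)) le_rfl
    exact_mod_cast h8

/-- from the horizons to one set -/
theorem set_of_horizons_F {N : ℕ → ℕ} (hN : ∀ K, 2 * N K ≤ N (K + 1)) (hN0 : 1 ≤ N 0)
    {K0 : ℕ} {F : ℕ → ℝ} {G : ℕ} (Used : ℕ → Prop)
    (h : ∀ S : ℕ, ∃ A : ℕ → Finset ℕ,
      (∀ K, K0 ≤ K → ∀ a ∈ A K, N K ≤ a ∧ a < N (K + 1)) ∧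
      (∀ K, K0 ≤ K → K < S → Used K → F K ≤ ((A K).card : ℝ)) ∧
      (∀ K K', K0 ≤ K' → K' ≤ K → ∀ n : ℕ,
        ((A K ×ˢ A K').filter (fun q => q.1 + q.2 = n)).card ≤ G)) :
    ∃ (B : Set ℕ) (K1 : ℕ), (∀ n : ℕ, 2 ≤ n → rep B n ≤ 6 * G) ∧
      ∀ K, K1 ≤ K → Used K → ∀ x : ℕ, 2 * N (K + 1) ≤ x → F K ≤
        2 * (K : ℝ) ^ 2 * ((B ∩ Set.Iio x).ncard : ℝ) := by
  set K1 := max K0 7 with hK1
  obtain ⟨B, hB⟩ := limit_sets (ι := ℕ ⊕ ℕ)
    (Sum.elim (fun n => n) (fun K => 2 * N (K + 1)))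
    (Sum.elim (fun n B => 2 ≤ n → rep B n ≤ 6 * G)
      (fun K B => K1 ≤ K → Used K → F K ≤
        2 * (K : ℝ) ^ 2 * ((B ∩ Set.Iio (2 * N (K + 1))).ncard : ℝ)))
    (by
      rintro (n | K) A B hAB hP
      · simp only [Sum.elim_inl] at *
        rw [← rep_congr A B n hAB]
        exact hP
      · simp only [Sum.elim_inr] at *
        rw [← inter_Iio_congr A B _ hAB]
        exact hP)
    (by
      intro M
      obtain ⟨A, h1, h2, h3⟩ := h (M + 1)
      obtain ⟨B, b1, b2⟩ := horizon_set_F (K0 := K1) (F := F) (G := G)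
        hN hN0 (le_max_right _ _) Used
        (M + 1) A (fun K hK => h1 K ((le_max_left _ _).trans hK))
        (fun K hK => h2 K ((le_max_left _ _).trans hK))
        (fun K K' hK' => h3 K K' ((le_max_left _ _).trans hK'))
      refine ⟨B, ?_⟩
      rintro (n | K) hi
      · simp only [Sum.elim_inl]
        exact b1 n
      · simp only [Sum.elim_inr] at *
        intro hK hU
        refine b2 K hK ?_ hU
        have h4 : K + 1 < 2 ^ (K + 1) := Nat.lt_two_pow_self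
        have h5 := two_pow_le_chain hN hN0 (K + 1)
        omega)
  refine ⟨B, K1, fun n hn => hB (Sum.inl n) hn, ?_⟩
  intro K hK hU x hx
  have e0 := hB (Sum.inr K)
  simp only [Sum.elim_inr] at e0
  refine (e0 hK hU).trans ?_
  have e1 : (B ∩ Set.Iio (2 * N (K + 1))).ncard ≤ (B ∩ Set.Iio x).ncard := by
    apply Set.ncard_le_ncard _ ((Set.finite_Iio x).subset Set.inter_subset_right)
    rintro b ⟨b1, b2⟩
    exact ⟨b1, lt_of_lt_of_le b2 hx⟩
  have e2 : ((B ∩ Set.Iio (2 * N (K + 1))).ncard : ℝ) ≤ ((B ∩ Set.Iio x).ncard : ℝ) := by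
    exact_mod_cast e1
  exact mul_le_mul_of_nonneg_left e2 (by positivity)

variable {κ : Type*} [DecidableEq κ] {M : κ → ℕ}

/-- the families for all horizons -/
theorem horizons_F (hM : ∀ k, 0 < M k) (keysOf : ℕ → Finset κ)
    (AA : ℕ → (κ → ℕ) → Finset ℕ) (N : ℕ → ℕ) (Used : ℕ → Prop) {K0 G : ℕ} {F : ℕ → ℝ}
    {c0 m' : ℝ} (hc0 : 0 < c0) (hm' : 0 ≤ m')
    (hrange : ∀ l, K0 ≤ l → Used l → ∀ w : κ → ℕ, (∀ k, w k < M k) →
      ∀ a ∈ AA l w, N l ≤ a ∧ a < N (l + 1))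
    (hcount : ∀ l, K0 ≤ l → Used l → ∀ w : κ → ℕ, (∀ k, w k < M k) →
      F l ≤ ((AA l w).card : ℝ))
    (hpair : ∀ l l', K0 ≤ l' → l' ≤ l → Used l → Used l' → ∀ K : Finset κ,
      keysOf l ⊆ K → keysOf l' ⊆ K →
      PrLe M K (fun w => ∃ n, G <
        ((AA l w ×ˢ AA l' w).filter (fun q => q.1 + q.2 = n)).card)
        (m' * Real.exp (-((l : ℝ) ^ c0)))) :
    ∃ K1, ∀ S : ℕ, ∃ A : ℕ → Finset ℕ,
      (∀ K, K1 ≤ K → ∀ a ∈ A K, N K ≤ a ∧ a < N (K + 1)) ∧
      (∀ K, K1 ≤ K → K < S → Used K → F K ≤ ((A K).card : ℝ)) ∧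
      (∀ K K', K1 ≤ K' → K' ≤ K → ∀ n : ℕ,
        ((A K ×ˢ A K').filter (fun q => q.1 + q.2 = n)).card ≤ G) := by
  classical
  obtain ⟨K1, hK01, hK1⟩ := exists_all_pairs hM keysOf hc0 K0 m' hm'
    (fun l l' w => (Used l ∧ Used l') ∧ ∃ n, G <
        ((AA l w ×ˢ AA l' w).filter (fun q => q.1 + q.2 = n)).card)
    (by
      intro l l' h1 h2 K hK hK'
      by_cases hU : Used l ∧ Used l'
      · exact PrLe_mono (fun _ _ hw => hw.2) le_rfl (hpair l l' h1 h2 hU.1 hU.2 K hK hK')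
      · exact PrLe_false (fun _ _ hw => hU hw.1) (mul_nonneg hm' (Real.exp_pos _).le))
  refine ⟨K1, fun S => ?_⟩
  obtain ⟨w, hw, hgood⟩ := hK1 S
  refine ⟨fun l => if l < S ∧ Used l then AA l w else ∅, ?_, ?_, ?_⟩
  · intro l hl a ha
    dsimp only at ha
    split_ifs at ha with hc
    · exact hrange l (hK01.trans hl) hc.2 w hw a ha
    · simp at ha
  · intro l hl hlS hU
    dsimp only
    rw [if_pos ⟨hlS, hU⟩]
    exact hcount l (hK01.trans hl) hU w hw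
  · intro l l' hl' hll n
    dsimp only
    by_cases hc : l < S ∧ Used l
    · by_cases hc' : l' < S ∧ Used l'
      · rw [if_pos hc, if_pos hc']
        by_contra hcon
        rw [not_le] at hcon
        exact hgood l l' hl' hll hc.1 ⟨⟨hc.2, hc'.2⟩, n, hcon⟩
      · rw [if_neg hc']
        simp
    · rw [if_neg hc]
      simp

/-- the count of the final set -/
theorem count_fixed {N : ℕ → ℕ} (hN : ∀ K, 2 * N K ≤ N (K + 1)) (hN0 : 1 ≤ N 0)
    {K1 c : ℕ} {C d : ℝ} (hC : 0 < C) (hd : 0 < d) (Used : ℕ → Prop) {B : Set ℕ}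
    (H1 : ∀ K1 : ℕ, ∃ K2 : ℕ, ∀ K, K2 ≤ K → ∃ K', K1 ≤ K' ∧ K' ≤ K ∧ Used K' ∧
      Real.log (N (K + 2)) - Real.log (N K') ≤ d * Real.log (N K))
    (h : ∀ K, K1 ≤ K → Used K → ∀ x : ℕ, 2 * N (K + 1) ≤ x →
      Real.sqrt (N K) / (C * (K : ℝ) ^ c * Real.exp (d * Real.log (N K))) ≤
        2 * (K : ℝ) ^ 2 * ((B ∩ Set.Iio x).ncard : ℝ)) :
    ∃ x0 : ℕ, ∀ x : ℕ, x0 ≤ x →
      (x : ℝ) ^ ((1 : ℝ) / 2 - 3 * d) ≤ ((B ∩ Set.Iio x).ncard : ℝ) := by
  obtain ⟨K2, hK2⟩ := H1 (max K1 1)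
  have hNpos : ∀ K, 1 ≤ N K := fun K =>
    (Nat.one_le_two_pow).trans (two_pow_le_chain hN hN0 K)
  have hNr : ∀ K, (0 : ℝ) < N K := fun K => by exact_mod_cast hNpos K
  have hlog : Filter.Tendsto (fun x : ℕ => Real.log (x : ℝ)) Filter.atTop Filter.atTop :=
    Real.tendsto_log_atTop.comp tendsto_natCast_atTop_atTop
  -- the polynomial loss
  have hpoly : ∀ᶠ L : ℝ in Filter.atTop, Real.log L ≤ d / (c + 2) * L := by
    have h1 := Real.isLittleO_log_id_atTop.def (show (0 : ℝ) < d / (c + 2) by positivity)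
    filter_upwards [h1, Filter.eventually_ge_atTop 0] with L hL hL0
    rw [Real.norm_eq_abs, Real.norm_eq_abs, id, abs_of_nonneg hL0] at hL
    exact (le_abs_self _).trans hL
  have hev : ∀ᶠ x : ℕ in Filter.atTop, Real.log (Real.log x) ≤ d / (c + 2) * Real.log x ∧
      1 ≤ Real.log x ∧
      Real.log 2 / 2 + Real.log (2 * C) + (c + 2) * Real.log 2 ≤ d / 2 * Real.log x := by
    refine (hlog.eventually hpoly).and ((hlog.eventually_ge_atTop 1).and ?_)
    filter_upwards [hlog.eventually_ge_atTop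
      ((Real.log 2 / 2 + Real.log (2 * C) + (c + 2) * Real.log 2) / (d / 2))] with x hx
    rw [div_le_iff₀ (by positivity)] at hx
    linarith
  obtain ⟨x1, hx1⟩ := Filter.eventually_atTop.1 hev
  refine ⟨max x1 (2 * N (K2 + 1)), fun x hx => ?_⟩
  obtain ⟨a1, a2, a3⟩ := hx1 x ((le_max_left _ _).trans hx)
  obtain ⟨K, k1, k2, k3⟩ := exists_scale hN hN0 K2 x ((le_max_right _ _).trans hx)
  obtain ⟨K', b1, b2, b3, b4⟩ := hK2 K k1
  have hmono : Monotone N := monotone_nat_of_le_succ (fun K => by have := hN K; omega)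
  have hx2 : 2 * N (K' + 1) ≤ x := (Nat.mul_le_mul_left _ (hmono (by omega))).trans k2
  have e0 := h K' ((le_max_left _ _).trans b1) b3 x hx2
  have hK'1 : 1 ≤ K' := (le_max_right _ _).trans b1
  have hxpos : (0 : ℝ) < x := by
    have : 1 ≤ x := by
      have := hNpos (K' + 1)
      omega
    exact_mod_cast this
  set L : ℝ := Real.log x with hL
  -- logs
  have c1 : Real.log (N K) ≤ L := by
    refine Real.log_le_log (hNr K) ?_
    exact_mod_cast (show N K ≤ x by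
      have := hmono (show K ≤ K + 1 by omega)
      omega)
  have c1' : Real.log (N K') ≤ L := by
    refine Real.log_le_log (hNr K') ?_
    exact_mod_cast (show N K' ≤ x by
      have := hmono (show K' ≤ K + 1 by omega)
      omega)
  have c2 : L ≤ Real.log 2 + Real.log (N (K + 2)) := by
    rw [← Real.log_mul (by norm_num) (hNr _).ne']
    refine Real.log_le_log hxpos ?_
    exact_mod_cast k3.le
  have c3 : (K' : ℝ) ≤ 2 * L := by
    have e1 : ((2 : ℝ) ^ K') ≤ N K' := by exact_mod_cast two_pow_le_chain hN hN0 K'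
    have e2 := Real.log_le_log (by positivity) e1
    rw [Real.log_pow] at e2
    have e3 := Real.log_two_gt_d9
    have e4 : (0 : ℝ) ≤ K' := Nat.cast_nonneg _
    nlinarith
  have hK'r : (1 : ℝ) ≤ K' := by exact_mod_cast hK'1
  have c4 : Real.log K' ≤ Real.log 2 + Real.log L := by
    rw [← Real.log_mul (by norm_num) (by linarith)]
    exact Real.log_le_log (by linarith) c3
  -- the count is positive
  have hlhs : 0 < Real.sqrt (N K') / (C * (K' : ℝ) ^ c * Real.exp (d * Real.log (N K'))) := by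
    have := Real.sqrt_pos.2 (hNr K')
    positivity
  have hcnt : (0 : ℝ) < ((B ∩ Set.Iio x).ncard : ℝ) := by
    by_contra hc
    have h0 : ((B ∩ Set.Iio x).ncard : ℝ) = 0 := le_antisymm (not_lt.1 hc) (Nat.cast_nonneg _)
    rw [h0, mul_zero] at e0
    linarith
  have e1 := Real.log_le_log hlhs e0
  rw [Real.log_div (Real.sqrt_pos.2 (hNr K')).ne' (by positivity),
    Real.log_mul (by positivity) (by positivity), Real.log_mul (by positivity) (by positivity),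
    Real.log_exp, Real.log_pow, Real.log_mul (by positivity) hcnt.ne',
    Real.log_mul (by norm_num) (by positivity), Real.log_pow, Real.log_sqrt (hNr K').le] at e1
  rw [← Real.log_le_log_iff (Real.rpow_pos_of_pos hxpos _) hcnt, Real.log_rpow hxpos, ← hL]
  have e2 : Real.log (2 * C) = Real.log 2 + Real.log C :=
    Real.log_mul (by norm_num) hC.ne'
  rw [e2] at a3
  have e3 : ((c : ℝ) + 2) * Real.log K' ≤ (c + 2) * Real.log 2 + d * L := by
    have e4 : ((c : ℝ) + 2) * Real.log K' ≤ (c + 2) * (Real.log 2 + Real.log L) :=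
      mul_le_mul_of_nonneg_left c4 (by positivity)
    have e5 : ((c : ℝ) + 2) * Real.log L ≤ (c + 2) * (d / (c + 2) * L) :=
      mul_le_mul_of_nonneg_left a1 (by positivity)
    have e6 : ((c : ℝ) + 2) * (d / (c + 2) * L) = d * L := by field_simp
    linarith
  have e7 : d * Real.log (N K') ≤ d * L := mul_le_mul_of_nonneg_left c1' hd.le
  have e8 : d * Real.log (N K) ≤ d * L := mul_le_mul_of_nonneg_left c1 hd.le
  push_cast at e1
  nlinarith

/-- **the final theorem from the blocks, fixed number of representations** -/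
theorem fixed_final (hM : ∀ k, 0 < M k) (keysOf : ℕ → Finset κ)
    (AA : ℕ → (κ → ℕ) → Finset ℕ) {N : ℕ → ℕ} (hN : ∀ K, 2 * N K ≤ N (K + 1)) (hN0 : 1 ≤ N 0)
    (Used : ℕ → Prop) {K0 c G : ℕ} {C d c0 m' : ℝ} (hC : 0 < C) (hd : 0 < d) (hd' : d ≤ 1 / 12)
    (hG : 1 ≤ G) (hc0 : 0 < c0) (hm' : 0 ≤ m')
    (H1 : ∀ K1 : ℕ, ∃ K2 : ℕ, ∀ K, K2 ≤ K → ∃ K', K1 ≤ K' ∧ K' ≤ K ∧ Used K' ∧
      Real.log (N (K + 2)) - Real.log (N K') ≤ d * Real.log (N K))
    (hrange : ∀ l, K0 ≤ l → Used l → ∀ w : κ → ℕ, (∀ k, w k < M k) →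
      ∀ a ∈ AA l w, N l ≤ a ∧ a < N (l + 1))
    (hcount : ∀ l, K0 ≤ l → Used l → ∀ w : κ → ℕ, (∀ k, w k < M k) →
      Real.sqrt (N l) ≤ C * (l : ℝ) ^ c * Real.exp (d * Real.log (N l)) * ((AA l w).card : ℝ))
    (hpair : ∀ l l', K0 ≤ l' → l' ≤ l → Used l → Used l' → ∀ K : Finset κ,
      keysOf l ⊆ K → keysOf l' ⊆ K →
      PrLe M K (fun w => ∃ n, G <
        ((AA l w ×ˢ AA l' w).filter (fun q => q.1 + q.2 = n)).card)
        (m' * Real.exp (-((l : ℝ) ^ c0)))) :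
    ∃ A : Set ℕ, A.Infinite ∧
      (∀ n : ℕ, {q : ℕ × ℕ | q.1 ∈ A ∧ q.2 ∈ A ∧ q.1 + q.2 = n}.ncard ≤ 8 * G) ∧
      ∃ x0 : ℕ, ∀ x : ℕ, x0 ≤ x →
        (x : ℝ) ^ ((1 : ℝ) / 2 - 3 * d) ≤ ((A ∩ Set.Iio x).ncard : ℝ) := by
  obtain ⟨K1, h⟩ := horizons_F hM keysOf AA N Used (K0 := K0 + 1) (G := G)
    (F := fun l => Real.sqrt (N l) / (C * (l : ℝ) ^ c * Real.exp (d * Real.log (N l))))
    hc0 hm' (fun l hl => hrange l (by omega))
    (fun l hl hU w hw => by
      have hl1 : (1 : ℝ) ≤ l := by exact_mod_cast (by omega : 1 ≤ l)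
      have hpos : 0 < C * (l : ℝ) ^ c * Real.exp (d * Real.log (N l)) := by positivity
      rw [div_le_iff₀ hpos, mul_comm]
      exact hcount l (by omega) hU w hw)
    (fun l l' h1 => hpair l l' (by omega))
  obtain ⟨B, K2, hrep, hcnt⟩ := set_of_horizons_F (K0 := K1) hN hN0 Used h
  obtain ⟨x0, hx0⟩ := count_fixed hN hN0 hC hd Used H1 hcnt
  refine ⟨B, ?_, ?_, x0, hx0⟩
  · intro hfin
    have h1 : Filter.Tendsto (fun x : ℕ => (x : ℝ) ^ ((1 : ℝ) / 2 - 3 * d)) Filter.atTop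
        Filter.atTop :=
      (tendsto_rpow_atTop (by linarith)).comp tendsto_natCast_atTop_atTop
    obtain ⟨x1, hx1⟩ := Filter.eventually_atTop.1
      (h1.eventually_ge_atTop ((B.ncard : ℝ) + 1))
    have h2 := hx0 (max x0 x1) (le_max_left _ _)
    have h3 := hx1 (max x0 x1) (le_max_right _ _)
    have h4 : ((B ∩ Set.Iio (max x0 x1)).ncard : ℝ) ≤ B.ncard := by
      exact_mod_cast Set.ncard_le_ncard Set.inter_subset_left hfin
    linarith
  · intro n
    rcases Nat.lt_or_ge n 2 with hn | hn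
    · have h1 : {q : ℕ × ℕ | q.1 ∈ B ∧ q.2 ∈ B ∧ q.1 + q.2 = n} ⊆
          ((Finset.HasAntidiagonal.antidiagonal n : Finset (ℕ × ℕ)) : Set (ℕ × ℕ)) := by
        rintro q ⟨_, _, hq⟩
        rw [Finset.mem_coe, Finset.HasAntidiagonal.mem_antidiagonal]
        exact hq
      have h2 := Set.ncard_le_ncard h1 (Finset.finite_toSet _)
      rw [Set.ncard_coe_finset, Finset.Nat.card_antidiagonal] at h2
      omega
    · have h3 := hrep n hn
      unfold rep at h3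
      omega

end Pool.Agent.Helper99.T5g
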