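import Pool.Agent.Helper84.T5g.Top
import Pool.Agent.Helper99.T5g.Fixed
import Pool.Agent.Helper99.T5g.Final
import Pool.Agent.Helper30.T5g.NLb

/-!
# T5g (MP_12a1af): the set of a schedule from the blocks
-/

set_option autoImplicit false

namespace Pool.Agent.Helper99.T5g

open Finset Pool.Agent.Helper5.ET Pool.Agent.Helper37.T5g Pool.Agent.Helper30.T5g
open Pool.Agent.Helper42.T5.Pr Pool.Agent.Helper42.T5 Pool.Agent.Helper84.T5g

/-- the facts about the used states -/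
structure UsedFacts (m : Sq) : Prop where
  apart : ∃ K0 : ℕ, ∀ l' l, K0 ≤ l' → l' ≤ l → Used m m.k l' → Used m m.k l → Apart m m.k l' l
  below : ∀ K1 : ℕ, ∃ K2 : ℕ, ∀ K, K2 ≤ K → ∃ K', K1 ≤ K' ∧ K' ≤ K ∧ Used m m.k K' ∧
    K ≤ K' + 4 * SS m (bL m m.k K + 1)
  ratio : ∃ l0 : ℕ, ∀ l, l0 ≤ l → SS m (bL m m.k l + 1) * 2 ^ ((m.q 0 + 1) * m.k) ≤ 2 * l

/-- the primes are small against `2 ^ k` -/
theorem exists_log_BP : ∃ k0 : ℕ, ∀ k, k0 ≤ k → 3 * (2 + Real.log (BP k)) ≤ 2 ^ k := by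
  obtain ⟨N, hN⟩ := Pool.Agent.Helper57.T5g.exists_BP_le_sq
  refine ⟨N + 10, fun k hk => ?_⟩
  have h1 : Real.log (BP k) ≤ (2 * Nat.log 2 (k + 1) + N : ℕ) := by
    have h2 : ((BP k : ℕ) : ℝ) ≤ (2 : ℝ) ^ (2 * Nat.log 2 (k + 1) + N) := by
      exact_mod_cast hN k
    have h3 := Real.log_le_log (by exact_mod_cast BP_pos' k) h2
    rw [Real.log_pow] at h3
    have h4 := Real.log_two_lt_d9
    have h5 : (0 : ℝ) ≤ ((2 * Nat.log 2 (k + 1) + N : ℕ) : ℝ) := Nat.cast_nonneg _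
    nlinarith
  have h6 : 2 * Nat.log 2 (k + 1) + N ≤ 3 * k := by
    have h7 : Nat.log 2 (k + 1) < k := by
      refine (Nat.log_lt_iff_lt_pow (by norm_num) (by omega)).2 ?_
      have : ∀ n : ℕ, 2 ≤ n → n + 1 < 2 ^ n := by
        intro n hn
        induction n, hn using Nat.le_induction with
        | base => norm_num
        | succ n hn ih =>
          rw [pow_succ]
          omega
      exact this k (by omega)
    omega
  have h8 : 9 * k + 6 ≤ 2 ^ k := by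
    have : ∀ n : ℕ, 10 ≤ n → 9 * n + 6 ≤ 2 ^ n := by
      intro n hn
      induction n, hn using Nat.le_induction with
      | base => norm_num
      | succ n hn ih =>
        rw [pow_succ]
        omega
    exact this k (by omega)
  have h9 : (((2 * Nat.log 2 (k + 1) + N : ℕ)) : ℝ) ≤ 3 * k := by exact_mod_cast h6
  have h10 : (9 * (k : ℝ) + 6) ≤ 2 ^ k := by exact_mod_cast h8
  linarith

/-- **the set of a schedule** -/
theorem perM_of {E : ℕ} {m : Sq} (hm : OkF m) (hk : 3 * (2 + Real.log (BP m.k)) ≤ 2 ^ m.k)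
    (hP : PairOK m (fun _ _ => True) (RpC m m.k) E) (hU : UsedFacts m) (hR : RangeStmt m)
    (hC : CountStmt m) : PerM (E + 1) m := by
  obtain ⟨K0, c0, m', hc0, hm', hP⟩ := hP
  obtain ⟨⟨K1, hap⟩, hbelow, ⟨K2, hratio⟩⟩ := hU
  obtain ⟨K3, hR⟩ := hR
  obtain ⟨K4, c, C, hC0, hC⟩ := hC
  have hq0 := hm.q 0
  have hk2 := hm.k2
  -- the numbers
  set r : ℝ := (2 : ℝ) ^ (-(((m.q 0 + 1) * m.k : ℕ) : ℝ)) with hr
  have hr0 : 0 < r := Real.rpow_pos_of_pos (by norm_num) _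
  have hr1 : r * (2 : ℝ) ^ ((m.q 0 + 1) * m.k) = 1 := by
    rw [hr, Real.rpow_neg (by norm_num), Real.rpow_natCast]
    exact inv_mul_cancel₀ (by positivity)
  have hBP : 0 ≤ Real.log (BP m.k) := Real.log_nonneg (by exact_mod_cast BP_pos' m.k)
  set d : ℝ := r * (2 + Real.log (BP m.k)) with hd
  have hd0 : 0 < d := by positivity
  have hd3 : 3 * d ≤ (2 : ℝ) ^ (-((m.q 0 * m.k : ℕ) : ℝ)) := by
    have e1 : r = (2 : ℝ) ^ (-((m.q 0 * m.k : ℕ) : ℝ)) * ((2 : ℝ) ^ m.k)⁻¹ := by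
      rw [hr, ← Real.rpow_natCast 2 m.k, ← Real.rpow_neg (by norm_num),
        ← Real.rpow_add (by norm_num)]
      congr 1
      push_cast
      ring
    have e2 : (0 : ℝ) < (2 : ℝ) ^ (-((m.q 0 * m.k : ℕ) : ℝ)) :=
      Real.rpow_pos_of_pos (by norm_num) _
    have e3 : (0 : ℝ) < (2 : ℝ) ^ m.k := by positivity
    calc 3 * d = (2 : ℝ) ^ (-((m.q 0 * m.k : ℕ) : ℝ)) *
          (((2 : ℝ) ^ m.k)⁻¹ * (3 * (2 + Real.log (BP m.k)))) := by
          rw [hd, e1]
          ring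
      _ ≤ (2 : ℝ) ^ (-((m.q 0 * m.k : ℕ) : ℝ)) * (((2 : ℝ) ^ m.k)⁻¹ * 2 ^ m.k) := by
          gcongr
      _ = _ := by rw [inv_mul_cancel₀ e3.ne', mul_one]
  have hd12 : d ≤ 1 / 12 := by
    have e1 : (2 : ℝ) ^ (-((m.q 0 * m.k : ℕ) : ℝ)) ≤ (2 : ℝ) ^ (-(2 : ℝ)) := by
      refine Real.rpow_le_rpow_of_exponent_le (by norm_num) (neg_le_neg ?_)
      have : 2 ≤ m.q 0 * m.k := by nlinarith
      exact_mod_cast this
    have e2 : (2 : ℝ) ^ (-(2 : ℝ)) = 1 / 4 := by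
      rw [Real.rpow_neg (by norm_num)]
      norm_num
    have e3 := hd3.trans (e1.trans e2.le)
    linarith
  have hl2 := Real.log_two_gt_d9
  have hl2' := Real.log_two_lt_d9
  obtain ⟨Lm, hLm⟩ : ∃ Lm : ℝ, Lm = Real.log ((10 : ℝ) ^ 6) := ⟨_, rfl⟩
  have hmil1 : 13.1 ≤ Lm := by
    have h1 : Real.log ((2 : ℝ) ^ 19) ≤ Lm := by
      rw [hLm]
      exact Real.log_le_log (by positivity) (by norm_num)
    have h2 : Real.log ((2 : ℝ) ^ 19) = 19 * Real.log 2 := by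
      rw [Real.log_pow]
      push_cast
      ring
    rw [h2] at h1
    linarith
  have hmil2 : Lm ≤ 13.9 := by
    have h1 : Lm ≤ Real.log ((2 : ℝ) ^ 20) := by
      rw [hLm]
      exact Real.log_le_log (by positivity) (by norm_num)
    have h2 : Real.log ((2 : ℝ) ^ 20) = 20 * Real.log 2 := by
      rw [Real.log_pow]
      push_cast
      ring
    rw [h2] at h1
    linarith
  have hNlow : ∀ l : ℕ, 13.1 * (l : ℝ) ≤ Real.log (NL m m.k l) := by
    intro l
    have e1 : ((10 : ℝ) ^ 6) ^ l ≤ NL m m.k l := by exact_mod_cast pow_le_NL m m.k l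
    have e2 := Real.log_le_log (by positivity) e1
    rw [Real.log_pow, ← hLm] at e2
    have e3 : (0 : ℝ) ≤ l := Nat.cast_nonneg _
    have e4 := mul_le_mul_of_nonneg_left hmil1 e3
    linarith
  -- the ratio in reals
  have hratio' : ∀ l, K2 ≤ l → ((SS m (bL m m.k l + 1) : ℕ) : ℝ) ≤ 2 * l * r := by
    intro l hl
    have e1 : ((SS m (bL m m.k l + 1) : ℕ) : ℝ) * 2 ^ ((m.q 0 + 1) * m.k) ≤ 2 * l := by
      exact_mod_cast hratio l hl
    calc ((SS m (bL m m.k l + 1) : ℕ) : ℝ) =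
          ((SS m (bL m m.k l + 1) : ℕ) : ℝ) * (r * 2 ^ ((m.q 0 + 1) * m.k)) := by
            rw [hr1, mul_one]
      _ = ((SS m (bL m m.k l + 1) : ℕ) : ℝ) * 2 ^ ((m.q 0 + 1) * m.k) * r := by ring
      _ ≤ 2 * l * r := mul_le_mul_of_nonneg_right e1 hr0.le
  obtain ⟨Kr, hKr⟩ := exists_nat_gt (2 / r)
  obtain ⟨A, hA1, hA2, x0, hA3⟩ := fixed_final (M := Mk m m.k) (Mk_pos m m.k) (keysOf m m.k)
    (AA m m.k) (N := NL m m.k) (fun K => two_NL_le m m.k K)
    (NL_pos m m.k 0) (Used m m.k) (K0 := max K0 (max K1 (max K2 (max K3 K4)))) (c := c)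
    (G := 2 ^ (E * m.q 0)) (C := C) (d := d) (c0 := c0) (m' := m') hC0 hd0 hd12
    Nat.one_le_two_pow hc0 hm'
    (by
      intro L1
      obtain ⟨L2, hL2⟩ := hbelow L1
      refine ⟨max L2 (max K2 Kr), fun K hK => ?_⟩
      obtain ⟨K', a1, a2, a3, a4⟩ := hL2 K ((le_max_left _ _).trans hK)
      refine ⟨K', a1, a2, a3, ?_⟩
      have e1 := hratio' K ((le_max_left _ _).trans ((le_max_right _ _).trans hK))
      have e2 : Real.log (NL m m.k (K + 2)) ≤
          Real.log (NL m m.k K') + ((K + 2 - K' : ℕ) : ℝ) * Real.log (BP m.k) := by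
        have h1 : NL m m.k (K + 2) ≤ NL m m.k K' * BP m.k ^ (K + 2 - K') :=
          NL_upper m m.k (by omega)
        have h2 : ((NL m m.k (K + 2) : ℕ) : ℝ) ≤
            (NL m m.k K' : ℝ) * (BP m.k : ℝ) ^ (K + 2 - K') := by exact_mod_cast h1
        have h3 : (0 : ℝ) < NL m m.k K' := by exact_mod_cast NL_pos m m.k K'
        have h4 : (0 : ℝ) < BP m.k := by exact_mod_cast BP_pos' m.k
        have h5 := Real.log_le_log (by exact_mod_cast NL_pos m m.k (K + 2)) h2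
        rw [Real.log_mul h3.ne' (by positivity), Real.log_pow] at h5
        exact h5
      have e3 : ((K + 2 - K' : ℕ) : ℝ) ≤ 4 * ((SS m (bL m m.k K + 1) : ℕ) : ℝ) + 2 := by
        exact_mod_cast (by omega : K + 2 - K' ≤ 4 * SS m (bL m m.k K + 1) + 2)
      have e4 : (2 : ℝ) ≤ K * r := by
        have h1 : (Kr : ℝ) ≤ K := by
          exact_mod_cast (le_max_right _ _).trans ((le_max_right _ _).trans hK)
        rw [div_lt_iff₀ hr0] at hKr
        nlinarith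
      have e5 : ((K + 2 - K' : ℕ) : ℝ) ≤ 9 * (K * r) := by linarith
      have e6 := hNlow K
      have e7 : ((K + 2 - K' : ℕ) : ℝ) * Real.log (BP m.k) ≤ 9 * (K * r) * Real.log (BP m.k) :=
        mul_le_mul_of_nonneg_right e5 hBP
      have e8 : d * (13.1 * K) ≤ d * Real.log (NL m m.k K) := mul_le_mul_of_nonneg_left e6 hd0.le
      have e9 : (0 : ℝ) ≤ (K * r) * Real.log (BP m.k) := by positivity
      have e10 : d * (13.1 * K) = 13.1 * (2 * (K * r) + (K * r) * Real.log (BP m.k)) := by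
        rw [hd]
        ring
      rw [e10] at e8
      nlinarith)
    (fun l hl _ w hw => hR l (by omega) w hw)
    (fun l hl _ w hw => by
      have e1 := hC l (by omega) w hw
      refine e1.trans ?_
      refine mul_le_mul_of_nonneg_right ?_ (Nat.cast_nonneg _)
      refine mul_le_mul_of_nonneg_left ?_ (by positivity)
      have e2 : ((RT m m.k (bL m m.k l) : ℕ) : ℝ) ≤ ((10 : ℝ) ^ 6) ^ SS m (bL m m.k l) := by
        exact_mod_cast RT_le hm.toOk m.k (bL m m.k l)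
      have e3 : (0 : ℝ) < RT m m.k (bL m m.k l) := by exact_mod_cast RT_pos m m.k _
      have e4 := Real.log_le_log e3 e2
      rw [Real.log_pow, ← hLm] at e4
      have e5 : Real.sqrt (RT m m.k (bL m m.k l)) =
          Real.exp (Real.log (RT m m.k (bL m m.k l)) / 2) := by
        rw [← Real.log_sqrt e3.le, Real.exp_log (Real.sqrt_pos.2 e3)]
      rw [e5]
      refine Real.exp_le_exp.2 ?_
      have e6 := hNlow l
      have e7 := hratio' l (by omega)
      have e8 : ((SS m (bL m m.k l) : ℕ) : ℝ) ≤ SS m (bL m m.k l + 1) := by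
        exact_mod_cast SS_mono m (Nat.le_succ _)
      have e9 : ((SS m (bL m m.k l) : ℕ) : ℝ) * Lm ≤ 2 * l * r * 13.9 :=
        mul_le_mul (e8.trans e7) hmil2 (by linarith) (by positivity)
      have e10 : d * (13.1 * l) ≤ d * Real.log (NL m m.k l) :=
        mul_le_mul_of_nonneg_left e6 hd0.le
      have e11 : (0 : ℝ) ≤ l * r * Real.log (BP m.k) := by positivity
      have e12 : d * (13.1 * l) = 26.2 * (l * r) + 13.1 * (l * r * Real.log (BP m.k)) := by
        rw [hd]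
        ring
      have e13 : (0 : ℝ) ≤ l * r := by positivity
      rw [e12] at e10
      nlinarith)
    (fun l l' h1 h2 hu hu' K hK hK' => by
      refine PrLe_mono (fun w _ hw => ?_) le_rfl
        (hP l l' (by omega) h2 (hap l' l (by omega) h2 hu' hu) trivial K hK hK')
      obtain ⟨n, hn⟩ := hw
      exact ⟨_, ⟨n, rfl⟩, hn⟩)
  refine ⟨A, hA1, fun n => (hA2 n).trans ?_, x0 + 1, fun x hx => ?_⟩
  · calc 8 * 2 ^ (E * m.q 0) = 2 ^ (E * m.q 0 + 3) := by ring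
      _ ≤ _ := Nat.pow_le_pow_right (by norm_num) (by nlinarith)
  · refine le_trans ?_ (hA3 x (by omega))
    have hx1 : (1 : ℝ) ≤ x := by exact_mod_cast (by omega : 1 ≤ x)
    exact Real.rpow_le_rpow_of_exponent_le hx1 (sub_le_sub_left hd3 _)

/-- **FixedG** from the blocks -/
theorem fixedG {k1 : ℕ} (hB : Blocks) (hU : ∀ m : Sq, OkF m → k1 ≤ m.k → UsedFacts m)
    (hR : ∀ m : Sq, OkF m → k1 ≤ m.k → RangeStmt m)
    (hC : ∀ m : Sq, OkF m → k1 ≤ m.k → CountStmt m) :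
    ∃ (c : ℝ) (g0 : ℕ), 0 < c ∧ ∀ g : ℕ, g0 ≤ g → ∃ A : Set ℕ, A.Infinite ∧
      (∀ n : ℕ, {p : ℕ × ℕ | p.1 ∈ A ∧ p.2 ∈ A ∧ p.1 + p.2 = n}.ncard ≤ g) ∧
      ∃ x0 : ℕ, ∀ x : ℕ, x0 ≤ x →
        (x : ℝ) ^ ((1 : ℝ) / 2 - (g : ℝ) ^ (-(c * Real.log g))) ≤
          ((A ∩ Set.Iio x).ncard : ℝ) := by
  obtain ⟨E, k0, hP⟩ := pair_all hB
  obtain ⟨k2, hk2⟩ := exists_log_BP
  exact fixedG_of (E := E + 1) (k0 := k0 + k1 + k2) (fun m hm hk =>
    perM_of hm (hk2 m.k (by omega)) (hP m hm (by omega)) (hU m hm (by omega))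
      (hR m hm (by omega)) (hC m hm (by omega)))

end Pool.Agent.Helper99.T5g
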