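import Pool.Agent.Helper99.T5g.Top

/-!
# T5g (MP_12a1af): FixedG for every `g ≥ 2`
-/

set_option autoImplicit false

namespace Pool.Agent.Helper99.T5g

open Pool.Agent.Helper37.T5g Pool.Agent.Helper30.T5g Pool.Agent.Helper84.T5g

/-- the powers of `3` -/
def pow3 : Set ℕ := Set.range (fun k : ℕ => 3 ^ k)

theorem pow3_inf : pow3.Infinite :=
  Set.infinite_range_of_injective (Nat.pow_right_injective (by norm_num))

theorem pow3_big {n a b : ℕ} (ha : a ∈ pow3) (hb : b ∈ pow3) (hab : a ≤ b) (h : a + b = n) :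
    b = 3 ^ Nat.log 3 n := by
  obtain ⟨i, rfl⟩ := ha
  obtain ⟨j, rfl⟩ := hb
  have h1 : 3 ^ j ≤ n := by
    rw [← h]
    exact Nat.le_add_left _ _
  have h2 : n < 3 ^ (j + 1) := by
    rw [← h, pow_succ]
    have h3 : 0 < 3 ^ j := by positivity
    have h4 : (fun k : ℕ => 3 ^ k) i ≤ 3 ^ j := hab
    simp only at h4 ⊢
    omega
  have h3 : Nat.log 3 n = j := Nat.log_eq_of_pow_le_of_lt_pow h1 h2
  simp only [h3]

theorem pow3_rep (n : ℕ) :
    {p : ℕ × ℕ | p.1 ∈ pow3 ∧ p.2 ∈ pow3 ∧ p.1 + p.2 = n}.ncard ≤ 2 := by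
  have hsub : {p : ℕ × ℕ | p.1 ∈ pow3 ∧ p.2 ∈ pow3 ∧ p.1 + p.2 = n} ⊆
      (({(n - 3 ^ Nat.log 3 n, 3 ^ Nat.log 3 n), (3 ^ Nat.log 3 n, n - 3 ^ Nat.log 3 n)} :
        Finset (ℕ × ℕ)) : Set (ℕ × ℕ)) := by
    rintro ⟨a, b⟩ ⟨ha, hb, hab⟩
    simp only at ha hb hab
    rw [Finset.coe_insert, Finset.coe_singleton]
    rcases le_total a b with h | h
    · left
      have h1 := pow3_big ha hb h hab
      have h2 : a = n - b := by omega
      rw [← h1, ← h2]
    · right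
      have h1 := pow3_big hb ha h (show b + a = n by omega)
      have h2 : b = n - a := by omega
      rw [← h1, ← h2]
      rfl
  refine (Set.ncard_le_ncard hsub (Finset.finite_toSet _)).trans ?_
  rw [Set.ncard_coe_finset]
  exact Finset.card_le_two

/-- **FixedG** for every `g ≥ 2` -/
theorem fixedG_all (hB : Blocks) :
    ∃ c : ℝ, 0 < c ∧ ∀ g : ℕ, 2 ≤ g → ∃ A : Set ℕ, A.Infinite ∧
      (∀ n : ℕ, {p : ℕ × ℕ | p.1 ∈ A ∧ p.2 ∈ A ∧ p.1 + p.2 = n}.ncard ≤ g) ∧
      ∃ x0 : ℕ, ∀ x : ℕ, x0 ≤ x →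
        (x : ℝ) ^ ((1 : ℝ) / 2 - (g : ℝ) ^ (-(c * Real.log g))) ≤
          ((A ∩ Set.Iio x).ncard : ℝ) := by
  obtain ⟨c, g0, hc, h⟩ := fixedG_of_blocks hB
  set L : ℝ := Real.log ((g0 : ℝ) + 2) with hL
  have hL0 : 0 < L := Real.log_pos (by
    have : (0 : ℝ) ≤ g0 := Nat.cast_nonneg _
    linarith)
  have h2 : 0 < Real.log 2 := Real.log_pos (by norm_num)
  set c' : ℝ := min c (Real.log 2 / L ^ 2) with hc'
  have hc'0 : 0 < c' := lt_min hc (by positivity)
  refine ⟨c', hc'0, fun g hg => ?_⟩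
  have hg1 : (1 : ℝ) ≤ g := by exact_mod_cast (by omega : 1 ≤ g)
  have hlg : 0 ≤ Real.log g := Real.log_nonneg hg1
  rcases le_or_gt g0 g with hgg | hgg
  · obtain ⟨A, hA1, hA2, x0, hA3⟩ := h g hgg
    refine ⟨A, hA1, hA2, x0 + 1, fun x hx => le_trans ?_ (hA3 x (by omega))⟩
    have hx1 : (1 : ℝ) ≤ x := by exact_mod_cast (by omega : 1 ≤ x)
    refine Real.rpow_le_rpow_of_exponent_le hx1 (sub_le_sub_left ?_ _)
    refine Real.rpow_le_rpow_of_exponent_le hg1 (neg_le_neg ?_)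
    exact mul_le_mul_of_nonneg_right (min_le_left _ _) hlg
  · refine ⟨pow3, pow3_inf, fun n => (pow3_rep n).trans hg, 2, fun x hx => ?_⟩
    have hx1 : (1 : ℝ) ≤ x := by exact_mod_cast (by omega : 1 ≤ x)
    have hcard : (1 : ℝ) ≤ ((pow3 ∩ Set.Iio x).ncard : ℝ) := by
      have h1 : 1 ≤ (pow3 ∩ Set.Iio x).ncard := by
        refine (Set.ncard_pos ((Set.finite_Iio x).subset Set.inter_subset_right)).2 ?_
        exact ⟨1, ⟨0, by simp⟩, Set.mem_Iio.2 (by omega)⟩
      exact_mod_cast h1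
    refine le_trans ?_ hcard
    have hlogle : Real.log g ≤ L := Real.log_le_log (by linarith) (by
      have : (g : ℝ) < g0 := by exact_mod_cast hgg
      linarith)
    have hexp : c' * Real.log g * Real.log g ≤ Real.log 2 := by
      calc c' * Real.log g * Real.log g ≤ (Real.log 2 / L ^ 2) * L * L := by
            have := min_le_right c (Real.log 2 / L ^ 2)
            gcongr
        _ = Real.log 2 := by
            field_simp
    have hhalf : (1 : ℝ) / 2 ≤ (g : ℝ) ^ (-(c' * Real.log g)) := by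
      rw [Real.rpow_def_of_pos (by linarith)]
      have e1 : Real.log g * -(c' * Real.log g) = -(c' * Real.log g * Real.log g) := by ring
      rw [e1, show (1 : ℝ) / 2 = Real.exp (-Real.log 2) by
        rw [Real.exp_neg, Real.exp_log (by norm_num)]
        norm_num]
      exact Real.exp_le_exp.2 (neg_le_neg hexp)
    exact Real.rpow_le_one_of_one_le_of_nonpos hx1 (by linarith)

end Pool.Agent.Helper99.T5g
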