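import Pool.Agent.Helper99.T5g.Perm
import Pool.Agent.Helper30.T5g.UsedF
import Pool.Agent.Helper30.T5g.BigQF
import Pool.Agent.Helper50.T5g.Count
import Pool.Agent.Helper27.T5g.Range

/-!
# T5g (MP_12a1af): FixedG from the pair blocks
-/

set_option autoImplicit false

namespace Pool.Agent.Helper99.T5g

open Pool.Agent.Helper37.T5g Pool.Agent.Helper30.T5g Pool.Agent.Helper84.T5g

theorem rangeStmt' {m : Sq} (hm : OkF m) : RangeStmt m := by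
  have hQ := bigQ_of_okF hm
  obtain ⟨l0, h⟩ := Pool.Agent.Helper27.T5g.exists_AA_range hm.toOk m.k
  exact ⟨l0, fun l hl w _ a ha => ⟨(h l hl w a ha).1, (h l hl w a ha).2.2⟩⟩

/-- **FixedG** from the pair blocks -/
theorem fixedG_of_blocks (hB : Blocks) :
    ∃ (c : ℝ) (g0 : ℕ), 0 < c ∧ ∀ g : ℕ, g0 ≤ g → ∃ A : Set ℕ, A.Infinite ∧
      (∀ n : ℕ, {p : ℕ × ℕ | p.1 ∈ A ∧ p.2 ∈ A ∧ p.1 + p.2 = n}.ncard ≤ g) ∧
      ∃ x0 : ℕ, ∀ x : ℕ, x0 ≤ x →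
        (x : ℝ) ^ ((1 : ℝ) / 2 - (g : ℝ) ^ (-(c * Real.log g))) ≤
          ((A ∩ Set.Iio x).ncard : ℝ) :=
  fixedG (k1 := 4) hB (fun _ hm hk => usedFacts hm hk) (fun _ hm _ => rangeStmt' hm)
    (fun _ hm _ => Pool.Agent.Helper50.T5g.countStmt hm.toOk)

end Pool.Agent.Helper99.T5g
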